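import Pool.Agent.H88.GT.J3

/-!
MP_78d38b (QC): the number of the twists, for finitely many curves and all fields between `K` and `N`.
-/

set_option autoImplicit false
set_option linter.unusedSectionVars false
open scoped Classical

open WithZero NumberField IsDedekindDomain H38RT
open H38T1 (SC sc scu rep eo la si OddP)
open H76PP (Cub LC ev scm dn)
open H30ZO (nb HH Wc)
open H26OD (dd3)
open H88GX (Ext)
open H26GX (Pk)

namespace H88QD

theorem count_N {K N : Type} [Field K] [NumberField K] [Field N] [NumberField N] [Algebra K N]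
    [IsGalois K N] {ι : Type} [Fintype ι] [Nonempty ι] {a b : ι → 𝓞 K}
    (hir : ∀ (j : ι) (t : K), t ^ 3 + (a j : K) * t + (b j : K) ≠ 0)
    (hind : ∀ I : Finset ι, I.Nonempty →
      ¬ IsSquare (algebraMap K N (∏ j ∈ I, dd3 (a j : K) (b j : K))))
    {D1 : K} (hD1 : D1 ≠ 0) (S : Finset (HeightOneSpectrum (𝓞 K)))
    (htv : ∀ j, H88PL.TvN K N (a j : K) (b j : K) D1) :
    ∃ c : ℝ, 0 < c ∧ ∃ X₀ : ℝ, ∀ X : ℝ, X₀ ≤ X → ∃ F : Finset (𝓞 K),
      (∀ D ∈ F, (∀ s : K →+* ℂ, ‖s (D : K)‖ ≤ X) ∧ (D : K) ≠ 0 ∧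
        (∀ v ∈ S, IsSquare (algebraMap K (v.adicCompletion K) ((D : K) / D1))) ∧
        (∀ s : K →+* ℝ, 0 < s ((D : K) / D1)) ∧
        ∀ j, H88PL.TvN K N (a j : K) (b j : K) (D : K)) ∧
      (∀ D ∈ F, ∀ D' ∈ F, IsSquare ((D : K) * (D' : K)) → D = D') ∧
      X ^ Module.finrank ℚ K / Real.log X ^ (1 - c) ≤ (F.card : ℝ) := by
  sorry

end H88QD
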